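import Pool.Agent.Lib.MP_cdeac6_an.Main

open Pool.Agent.Lib.MP_cdeac6_an

/-- For large voltage no solution of the free boundary model with bending outlives a fixed time. -/
theorem Pool.Agent.Results.MP_cdeac6_an.FiniteTime.result
    (β τ γ ε : ℝ) (hβ : 0 < β) (hτ : 0 ≤ τ) (_hγ : 0 ≤ γ) (_hε : 0 < ε) :
    ∃ lam0 T0 : ℝ, ∀ lam : ℝ, lam0 < lam →
      ∀ (T : ℝ) (u : ℝ → ℝ → ℝ) (ψ ψx ψz : ℝ → ℝ × ℝ → ℝ),
        IsSolutionOn β τ γ ε lam T u ψ ψx ψz → T ≤ T0 :=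
  main β τ γ ε hβ hτ
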